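import Pool.Agent.H21.WOT.STP

/-!
# WOT: the process, iterated
-/

set_option autoImplicit false

namespace Pool.WOT

open MvPolynomial Pool.FOS Pool.TRN Finset

theorem t_itr (hS : STPStmt) : ITRStmt := by
  intro m s R
  induction s with
  | zero =>
    intro y h
    have h1 : Sh R y = ∅ := by
      rw [Finset.eq_empty_iff_forall_notMem]
      intro a ha
      rw [mem_Sh] at ha
      have h2 := h (R - a.2) (by omega) (by omega)
      rw [Function.iterate_zero, id] at h2
      omega
    rw [h1]
    exact ⟨fun i => i.elim0, fun c _ a ha => absurd ha (Finset.notMem_empty a)⟩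
  | succ s ih =>
    intro y h
    refine hS m s R y (ih _ fun t h1 h2 => ?_)
    have h3 := h t h1 h2
    rwa [Function.iterate_succ_apply] at h3

end Pool.WOT
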