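import Pool.Agent.H36.WOT.S1

/-!
# WOT: one step of the process
-/

set_option autoImplicit false

namespace Pool.WOT

open MvPolynomial Pool.FOS Pool.TRN Finset

/-- The levels which are used in the row `t`. -/
def JJ (m R : ℕ) (y : ℕ → ℕ) (t : ℕ) : Finset ℕ :=
  (Finset.range (y t)).filter fun j =>
    j + ((Finset.Ioc t R).filter fun u => j < y u).card < m

theorem nx_eq (m R : ℕ) (y : ℕ → ℕ) (t : ℕ) : nx m R y t = y t - (JJ m R y t).card := rfl

theorem JJ_card (m R : ℕ) (y : ℕ → ℕ) (t : ℕ) : (JJ m R y t).card ≤ y t := by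
  refine (Finset.card_filter_le _ _).trans ?_
  rw [Finset.card_range]

theorem prod_choose (x j : ℕ) :
    ∏ i ∈ Finset.range j, ((x : ℂ) - i) = (j.factorial : ℂ) * (Nat.choose x j : ℂ) := by
  induction j with
  | zero => simp
  | succ j ih =>
    rw [Finset.prod_range_succ, ih, Nat.factorial_succ]
    have h1 := Nat.choose_succ_right_eq x j
    have h2 : (Nat.choose x (j + 1) : ℂ) * ((j : ℂ) + 1) = (Nat.choose x j : ℂ) * ((x : ℂ) - j) := by
      rcases Nat.lt_or_ge x j with h3 | h3
      · rw [Nat.choose_eq_zero_of_lt h3, Nat.choose_eq_zero_of_lt (by omega)]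
        simp
      · have := congrArg (fun n : ℕ => (n : ℂ)) h1
        push_cast [Nat.cast_sub h3] at this
        exact this
    push_cast
    linear_combination (-(j.factorial : ℂ)) * h2

theorem ev_mul (a : ℕ × ℕ) (p q : MvPolynomial (Fin 2) ℂ) : ev a (p * q) = ev a p * ev a q := by
  simp [ev]

theorem ev_prod {ι : Type} (a : ℕ × ℕ) (s : Finset ι) (p : ι → MvPolynomial (Fin 2) ℂ) :
    ev a (∏ i ∈ s, p i) = ∏ i ∈ s, ev a (p i) := by
  simp [ev, map_prod]

theorem ev_sum {ι : Type} (a : ℕ × ℕ) (s : Finset ι) (p : ι → MvPolynomial (Fin 2) ℂ) :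
    ev a (∑ i ∈ s, p i) = ∑ i ∈ s, ev a (p i) := by
  simp [ev, map_sum]

/-- The rows below which are longer than `j`. -/
def SS (R : ℕ) (y : ℕ → ℕ) (c j : ℕ) : Finset ℕ :=
  (Finset.range c).filter fun c' => j < y (R - c')

theorem SS_card {R : ℕ} {y : ℕ → ℕ} {c : ℕ} (hc : c < R) (j : ℕ) :
    (SS R y c j).card ≤ ((Finset.Ioc (R - c) R).filter fun u => j < y u).card := by
  refine Finset.card_le_card_of_injOn (fun c' => R - c') ?_ ?_
  · intro c' h
    simp only [SS, Finset.coe_filter, Finset.mem_range, Set.mem_ofPred_eq] at h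
    simp only [Finset.coe_filter, Finset.mem_Ioc, Set.mem_ofPred_eq]
    exact ⟨⟨by omega, by omega⟩, h.2⟩
  · intro c' h c'' h' e
    simp only [SS, Finset.coe_filter, Finset.mem_range, Set.mem_ofPred_eq] at h h'
    simp only at e
    omega

/-- The basic polynomials. -/
noncomputable def bp (R : ℕ) (y : ℕ → ℕ) (c j : ℕ) : MvPolynomial (Fin 2) ℂ :=
  (∏ i ∈ Finset.range j, (X 0 - C (i : ℂ))) * ∏ c' ∈ SS R y c j, (X 1 - C (c' : ℂ))

theorem deg_lin (i : Fin 2) (z : ℂ) : (X i - C z : MvPolynomial (Fin 2) ℂ).totalDegree ≤ 1 := by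
  refine (totalDegree_sub _ _).trans ?_
  rw [totalDegree_X, totalDegree_C]
  simp

theorem bp_deg {R : ℕ} {y : ℕ → ℕ} {c j : ℕ} :
    (bp R y c j).totalDegree ≤ j + (SS R y c j).card := by
  unfold bp
  refine (totalDegree_mul _ _).trans (add_le_add ?_ ?_)
  · refine (totalDegree_finsetProd _ _).trans ?_
    refine (Finset.sum_le_sum fun i _ => deg_lin 0 _).trans ?_
    simp
  · refine (totalDegree_finsetProd _ _).trans ?_
    refine (Finset.sum_le_sum fun i _ => deg_lin 1 _).trans ?_
    simp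

theorem bp_ev {R : ℕ} {y : ℕ → ℕ} {c j : ℕ} (x c' : ℕ) :
    ev (x, c') (bp R y c j) = (j.factorial : ℂ) * (Nat.choose x j : ℂ) *
      ∏ i ∈ SS R y c j, ((c' : ℂ) - i) := by
  unfold bp
  rw [ev_mul, ev_prod, ev_prod, ← prod_choose]
  congr 1
  · refine Finset.prod_congr rfl fun i _ => ?_
    simp [ev]
  · refine Finset.prod_congr rfl fun i _ => ?_
    simp [ev]

/-- **ROW**: prescribed values at the right end of the row `c`, zero on the rows below. -/
theorem row (hB : BINStmt) {m R : ℕ} (hm : 0 < m) (y : ℕ → ℕ) {c : ℕ} (hc : c < R) (g : ℕ → ℂ) :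
    ∃ q : MvPolynomial (Fin 2) ℂ, q.totalDegree < m ∧
      (∀ x c', c' < c → x < y (R - c') → ev (x, c') q = 0) ∧
      ∀ x, nx m R y (R - c) ≤ x → x < y (R - c) → ev (x, c) q = g x := by
  classical
  obtain ⟨J, hJ⟩ : ∃ J, J = JJ m R y (R - c) := ⟨_, rfl⟩
  obtain ⟨z, hz⟩ : ∃ z, z = y (R - c) := ⟨_, rfl⟩
  have hJz : J ⊆ Finset.range z := by
    rw [hJ, hz]
    exact Finset.filter_subset _ _
  have hJm : ∀ j ∈ J, j + (SS R y c j).card < m := by
    intro j hj
    rw [hJ] at hj
    have h1 := (Finset.mem_filter.1 hj).2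
    have h2 := SS_card (y := y) hc j
    omega
  have hJc : J.card ≤ z := by
    have := Finset.card_le_card hJz
    rwa [Finset.card_range] at this
  obtain ⟨I, hI⟩ : ∃ I : Finset ℕ, I = Finset.Ico (z - J.card) z := ⟨_, rfl⟩
  have hIc : I.card = J.card := by
    rw [hI, Nat.card_Ico]
    omega
  -- the linear map
  obtain ⟨w, hw⟩ : ∃ w : ℕ → ℂ, w = fun j => (j.factorial : ℂ) *
    ∏ i ∈ SS R y c j, ((c : ℂ) - i) := ⟨_, rfl⟩
  have hw0 : ∀ j, w j ≠ 0 := by
    intro j
    rw [hw]
    refine mul_ne_zero (by exact_mod_cast Nat.factorial_ne_zero j) ?_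
    rw [Finset.prod_ne_zero_iff]
    intro i hi
    have h1 := Finset.mem_range.1 (Finset.mem_filter.1 hi).1
    rw [sub_ne_zero]
    exact_mod_cast (by omega : c ≠ i)
  let Φ : (J → ℂ) →ₗ[ℂ] (I → ℂ) :=
    { toFun := fun l x => ∑ j : J, l j * w j * (Nat.choose x j : ℂ)
      map_add' := fun l l' => by
        funext x
        simp only [Pi.add_apply]
        rw [← Finset.sum_add_distrib]
        exact Finset.sum_congr rfl fun j _ => by ring
      map_smul' := fun r l => by
        funext x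
        simp only [Pi.smul_apply, smul_eq_mul, RingHom.id_apply]
        rw [Finset.mul_sum]
        exact Finset.sum_congr rfl fun j _ => by ring }
  have hinj : Function.Injective Φ := by
    rw [injective_iff_map_eq_zero]
    intro l hl
    obtain ⟨lam, hlam⟩ : ∃ lam : ℕ → ℂ, lam = fun j => if h : j ∈ J then l ⟨j, h⟩ * w j else 0 :=
      ⟨_, rfl⟩
    have h1 := hB J.card z J lam hJz rfl (by
      intro x hx1 hx2
      have hxI : x ∈ I := by
        rw [hI, Finset.mem_Ico]
        omega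
      have h2 := congrFun hl ⟨x, hxI⟩
      have h3 : ∑ j : J, l j * w j * (Nat.choose x j : ℂ) = 0 := h2
      rw [← h3, ← Finset.sum_coe_sort J]
      refine Finset.sum_congr rfl fun j _ => ?_
      rw [hlam]
      simp only [Finset.coe_mem, dif_pos, Subtype.coe_eta])
    funext j
    have h4 := h1 j.1 j.2
    rw [hlam] at h4
    simp only [Finset.coe_mem, dif_pos, Subtype.coe_eta] at h4
    exact (mul_eq_zero.1 h4).resolve_right (hw0 _)
  have hsurj : Function.Surjective Φ := by
    refine (LinearMap.injective_iff_surjective_of_finrank_eq_finrank ?_).1 hinj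
    rw [Module.finrank_fintype_fun_eq_card, Module.finrank_fintype_fun_eq_card, Fintype.card_coe,
      Fintype.card_coe, hIc]
  obtain ⟨l, hl⟩ := hsurj fun x => g x
  refine ⟨∑ j : J, C (l j) * bp R y c j, ?_, ?_, ?_⟩
  · have h1 : (∑ j : J, C (l j) * bp R y c j).totalDegree ≤ m - 1 := by
      refine (totalDegree_finsetSum _ _).trans (Finset.sup_le fun j _ => ?_)
      refine (totalDegree_mul _ _).trans ?_
      rw [totalDegree_C, zero_add]
      have h2 := bp_deg (R := R) (y := y) (c := c) (j := j.1)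
      have h3 := hJm j.1 j.2
      omega
    omega
  · intro x c' hc' hx
    rw [ev_sum]
    refine Finset.sum_eq_zero fun j _ => ?_
    rw [ev_mul, bp_ev]
    by_cases h1 : (j : ℕ) < y (R - c')
    · have h2 : ∏ i ∈ SS R y c j, ((c' : ℂ) - i) = 0 :=
        Finset.prod_eq_zero (i := c')
          (Finset.mem_filter.2 ⟨Finset.mem_range.2 hc', h1⟩) (sub_self _)
      rw [h2, mul_zero, mul_zero]
    · have h2 : Nat.choose x j = 0 := Nat.choose_eq_zero_of_lt (by omega)
      rw [h2]
      simp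
  · intro x hx1 hx2
    rw [nx_eq, ← hJ, ← hz] at hx1
    rw [← hz] at hx2
    have hxI : x ∈ I := by
      rw [hI, Finset.mem_Ico]
      exact ⟨hx1, hx2⟩
    have h2 := congrFun hl ⟨x, hxI⟩
    have h3 : ∑ j : J, l j * w j * (Nat.choose x j : ℂ) = g x := h2
    rw [← h3, ev_sum]
    refine Finset.sum_congr rfl fun j _ => ?_
    rw [ev_mul, bp_ev, hw]
    simp only [ev, eval_C]
    ring

theorem mem_Sh {R : ℕ} {y : ℕ → ℕ} {a : ℕ × ℕ} :
    a ∈ Sh R y ↔ a.2 < R ∧ a.1 < y (R - a.2) := by
  unfold Sh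
  simp only [Finset.mem_biUnion, Finset.mem_range, Finset.mem_image]
  constructor
  · rintro ⟨c, hc, x, hx, rfl⟩
    exact ⟨hc, hx⟩
  · rintro ⟨h1, h2⟩
    exact ⟨a.2, h1, a.1, h2, rfl⟩

theorem t_stp (hB : BINStmt) (hR : REDStmt) : STPStmt := by
  classical
  intro m s R y hs
  have hle : ∀ t, nx m R y t ≤ y t := fun t => Nat.sub_le _ _
  have hsub : Sh R (nx m R y) ⊆ Sh R y := by
    intro a ha
    rw [mem_Sh] at ha ⊢
    exact ⟨ha.1, ha.2.trans_le (hle _)⟩
  refine hR m s (Sh R y) (Sh R y \ Sh R (nx m R y)) Finset.sdiff_subset ?_ ?_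
  · intro u hu
    rw [Finset.mem_sdiff, mem_Sh, mem_Sh] at hu
    have hu1 := hu.1
    have hu2 : nx m R y (R - u.2) ≤ u.1 := by
      by_contra h
      exact hu.2 ⟨hu1.1, not_le.1 h⟩
    have hm : 0 < m := by
      rcases Nat.eq_zero_or_pos m with h | h
      · exfalso
        have h1 : nx m R y (R - u.2) = y (R - u.2) := by
          unfold nx
          rw [h]
          simp
        omega
      · exact h
    have key : ∀ n, u.2 + n < R → ∃ q : MvPolynomial (Fin 2) ℂ, q.totalDegree < m ∧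
        ev u q = 1 ∧ (∀ x c', c' < u.2 → x < y (R - c') → ev (x, c') q = 0) ∧
        ∀ x c', u.2 ≤ c' → c' ≤ u.2 + n → nx m R y (R - c') ≤ x → x < y (R - c') →
          (x, c') ≠ u → ev (x, c') q = 0 := by
      intro n
      induction n with
      | zero =>
        intro _
        obtain ⟨q, h1, h2, h3⟩ := row hB hm y hu1.1 (fun x => if x = u.1 then 1 else 0)
        refine ⟨q, h1, ?_, h2, ?_⟩
        · have := h3 u.1 hu2 hu1.2
          rw [if_pos rfl] at this
          exact this
        · intro x c' e1 e2 e3 e4 e5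
          have hcc : c' = u.2 := by omega
          subst hcc
          rw [h3 x e3 e4, if_neg]
          intro h
          exact e5 (by rw [h])
      | succ n ih =>
        intro hn
        obtain ⟨q, h1, h2, h3, h4⟩ := ih (by omega)
        obtain ⟨r, k1, k2, k3⟩ := row hB hm y (c := u.2 + (n + 1)) hn
          (fun x => ev (x, u.2 + (n + 1)) q)
        have hev : ∀ a, ev a (q - r) = ev a q - ev a r := fun a => by simp [ev]
        refine ⟨q - r, lt_of_le_of_lt (totalDegree_sub _ _) (max_lt h1 k1), ?_, ?_, ?_⟩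
        · rw [hev, h2]
          have := k2 u.1 u.2 (by omega) hu1.2
          rw [show ((u.1, u.2) : ℕ × ℕ) = u from rfl] at this
          rw [this, sub_zero]
        · intro x c' e1 e2
          rw [hev, h3 x c' e1 e2, k2 x c' (by omega) e2, sub_zero]
        · intro x c' e1 e2 e3 e4 e5
          rw [hev]
          rcases Nat.lt_or_ge c' (u.2 + (n + 1)) with h5 | h5
          · rw [h4 x c' e1 (by omega) e3 e4 e5, k2 x c' h5 e4, sub_zero]
          · have h6 : c' = u.2 + (n + 1) := by omega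
            subst h6
            rw [k3 x e3 e4, sub_self]
    obtain ⟨q, h1, h2, h3, h4⟩ := key (R - 1 - u.2) (by omega)
    refine ⟨q, h1, h2, ?_⟩
    intro a ha hau hc
    rw [mem_Sh] at ha
    have hfin : a.2 < u.2 ∨ (u.2 ≤ a.2 ∧ nx m R y (R - a.2) ≤ a.1) := by
      rcases Nat.lt_or_ge a.2 u.2 with h5 | h5
      · exact Or.inl h5
      · refine Or.inr ⟨h5, ?_⟩
        rcases hc with h6 | h6 | h6
        · rw [Finset.mem_sdiff, mem_Sh, mem_Sh] at h6
          by_contra h7
          exact h6.2 ⟨ha.1, not_le.1 h7⟩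
        · omega
        · rw [h6.1]
          omega
    rcases hfin with h5 | h5
    · exact h3 a.1 a.2 h5 ha.2
    · exact h4 a.1 a.2 h5.1 (by omega) h5.2 ha.2 hau
  · rw [Finset.sdiff_sdiff_eq_self hsub]
    exact hs

end Pool.WOT
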